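import Mathlib

/-!
# Covering density of planar convex bodies: definitions (project CB, MP_b21509_co)

The plane is `ℂ`, areas are Lebesgue measure.
-/

open MeasureTheory Set Filter

namespace Helper97.CB

/-- A planar convex body: compact, convex, with nonempty interior. -/
def IsBody (K : Set ℂ) : Prop :=
  Convex ℝ K ∧ IsCompact K ∧ (interior K).Nonempty

/-- The density of a countable family of congruent copies of `K`:
`liminf_{r → ∞} (∑ᵢ area (φᵢ(K) ∩ D_r)) / (π r²)`, where `D_r` is the closed disk of radius `r`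
centred at the origin. -/
noncomputable def dens (K : Set ℂ) (φ : ℕ → (ℂ ≃ᵢ ℂ)) : ENNReal :=
  liminf (fun r : ℝ => (∑' i, volume (φ i '' K ∩ Metric.closedBall (0 : ℂ) r)) /
    ENNReal.ofReal (Real.pi * r ^ 2)) atTop

/-- The covering density `θ(K)`: the infimum of the densities of all coverings of the plane by
countably many congruent copies of `K`. -/
noncomputable def theta (K : Set ℂ) : ENNReal :=
  ⨅ φ ∈ {φ : ℕ → (ℂ ≃ᵢ ℂ) | ⋃ i, φ i '' K = univ}, dens K φ

/-- The area of `K` as a real number. -/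
noncomputable def area (K : Set ℂ) : ℝ := (volume K).toReal

/-- The cross product (determinant) of two vectors of the plane. -/
def cr (z w : ℂ) : ℝ := z.re * w.im - z.im * w.re

/-! ## Auxiliary notions used in the proof -/

/-- The points `z` of `K` for which `z + s` is in `K` as well (horizontal chords of length `s`). -/
def Sh (K : Set ℂ) (s : ℝ) : Set ℂ := {z | z ∈ K ∧ z + (s : ℂ) ∈ K}

/-- The height (vertical extent) of `Sh K s`: the distance of the two extreme horizontal chords
of length `s`. -/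
noncomputable def wid (K : Set ℂ) (s : ℝ) : ℝ :=
  sSup (Complex.im '' Sh K s) - sInf (Complex.im '' Sh K s)

/-- The length of the longest horizontal chord of `K`. -/
noncomputable def cmax (K : Set ℂ) : ℝ := sSup {s : ℝ | 0 ≤ s ∧ (Sh K s).Nonempty}

/-- `K` contains the six vertices of the hexagon with the parallelogram `P, P+a, P+a+b, P+b`,
with an apex `P + (1+γ) a + c b` beyond the side from `P+a` to `P+a+b` and an apex
`P - φ a + f b` beyond the side from `P` to `P+b`. (A hexagon with one pair of parallel sides of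
equal length, namely `a`; its area is `(2+γ+φ) (a × b) / 2`.) -/
def Hex (K : Set ℂ) (P a b : ℂ) (γ φ c f : ℝ) : Prop :=
  0 < cr a b ∧ 0 ≤ γ ∧ 0 ≤ φ ∧ c ∈ Icc (0 : ℝ) 1 ∧ f ∈ Icc (0 : ℝ) 1 ∧
  P ∈ K ∧ P + a ∈ K ∧ P + b ∈ K ∧ P + a + b ∈ K ∧
  P + ((1 + γ : ℝ) : ℂ) * a + (c : ℂ) * b ∈ K ∧
  P - (φ : ℂ) * a + (f : ℂ) * b ∈ K

/-- all hexagons of `K` in the sense of `Hex` have twice the area less than `B` -/
def Small (K : Set ℂ) (B : ℝ) : Prop :=
  ∀ (P a b : ℂ) (γ φ c f : ℝ), Hex K P a b γ φ c f → (2 + γ + φ) * cr a b < B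

end Helper97.CB
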