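import Pool.Agent.Helper97.CB.Defs

/-!
# Project CB (MP_b21509_co, zero level): statements with complete proofs

THEOREM 1. Let `K` be a planar convex body with area `k`. If `K` has two chords whose vectors span a
parallelogram of area at least `1.453 k` (for instance if `K` contains a convex quadrilateral of
area at least `0.7265 k`), or if `K` is contained in a parallelogram of area at most `1.106 k`, then
`θ(K) ≤ 2π/√27`, the conjectured bound. With `1.354` and `1.157` one gets `θ(K) ≤ 1.22817` (below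
the best bound known for all convex bodies).

THEOREM 2. The same if `area (K - K) ≥ 4.56 k` (resp. `≥ 4.25 k`).

Overview. For a direction `e` let `D(s)` be the distance of the two extreme chords of length `s`
parallel to `e`; it is concave on `[0,c]`, `c` = longest chord, `D(0) = W` = width, and
`∫ D = k`. The hexagon with two opposite vertices = lowest and highest point of `K` and the two
extreme chords of length `s` has area `s (W + D(s)) / 2` (HXA); the hexagon formed by the two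
extreme chords of length `s` and the longest chord has area `D(s) (s + c) / 2` (HXB). Both have a
pair of parallel equal sides and tile the plane by a double lattice (COV), so
`θ(K) ≤ k / area` (LIM, THE). If all these hexagons are small then Jensen's inequality for the
concave function `D` at two points forces `c W` into a narrow range (ONE), and it bounds
`∫ s² D(s) ds` from below (TWO). The mean of `∫ s² D(s) ds` over the directions is known exactly
(Crofton's formula for the third power of the chords, PIG).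

All modules are independent: the earlier statements are hypotheses. Prove e.g.
`theorem hHXA (h : StWid) : StHexA` in your module file.
-/

open MeasureTheory Set Filter
open scoped Pointwise

namespace Helper97.CB

/-- MODULE WID (about 150 lines). `theorem hWID : StWid`.
Proof. `K` is nonempty, compact, convex with interior. `Sh K s` is compact and convex; if
`z ∈ Sh K s`, `w ∈ Sh K t`, `λ ∈ [0,1]` then `(1-λ) z + λ w ∈ Sh K ((1-λ) s + λ t)` (convexity of
`K`). `S = {s ≥ 0 | Sh K s nonempty}` is bounded (`K` is bounded), contains a positive number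
(`K` contains a disk), is closed (compactness of `K`), so `cmax K ∈ S`, `cmax K > 0` and
`S = [0, cmax K]` (if `z, z + s ∈ K` then `z + t ∈ K` for `0 ≤ t ≤ s`). For `s ∈ S` the set
`Im (Sh K s)` is nonempty and compact, so sup and inf are attained: `sup` is concave in `s`, `inf`
is convex, hence `wid` is concave and `≥ 0`. `Sh K s ⊆ Sh K 0 = K` gives `wid K s ≤ wid K 0`, and
`wid K 0 > 0` since `K` contains a disk. Continuity: a concave function is continuous in the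
interior and lower semicontinuous at the end points of the interval
(`wid (t c) ≥ (1-t) wid 0 + t wid c`); at `0` it is `≤ wid K 0`; at `c` it is upper semicontinuous
by compactness (points `z_n, w_n ∈ Sh K s_n`, `s_n → c`, with the extreme heights have limit points
in `Sh K c`). -/
def StWid : Prop := ∀ K : Set ℂ, IsBody K →
  0 < cmax K ∧ 0 < wid K 0 ∧ ConcaveOn ℝ (Icc 0 (cmax K)) (wid K) ∧
  ContinuousOn (wid K) (Icc 0 (cmax K)) ∧
  (∀ s ∈ Icc 0 (cmax K), (Sh K s).Nonempty ∧ 0 ≤ wid K s ∧ wid K s ≤ wid K 0) ∧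
  (∀ s, cmax K < s → Sh K s = ∅) ∧
  (∀ z ∈ K, ∀ w ∈ K, z.im - w.im ≤ wid K 0)

/-- MODULE ARE (about 150 lines). `theorem hARE (h : StWid) : StAre`.
Proof (Fubini and layer cake). Identify `ℂ` with `ℝ × ℝ` (`Complex.measurableEquivRealProd`, volume
preserving). For a height `t` the section `{x | x + t i ∈ K}` is a compact interval (or empty) of
length `ℓ(t)`; the section of `Sh K r` at the height `t` is an interval of length `(ℓ(t) - r)⁺` (or
a point/empty), so `area (Sh K r) = ∫_t (ℓ(t) - r)⁺ dt = ∫_t ∫_{s > r} 1[ℓ(t) ≥ s] ds dt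
= ∫_{s > r} |{t : ℓ(t) ≥ s}| ds` and for `s > 0` `{t : ℓ(t) ≥ s} = Im (Sh K s)`, which is a
compact interval of length `wid K s` for `0 < s ≤ cmax K` and empty for `s > cmax K`
(`Im` of a compact convex set). -/
def StAre : Prop := ∀ K : Set ℂ, IsBody K → ∀ r ∈ Icc 0 (cmax K),
  area (Sh K r) = ∫ s in r..cmax K, wid K s

/-- MODULE PRT (about 50 lines). `theorem hPRT : StPrt`. Integration by parts or Fubini on the
triangle `0 < r < s < c`. -/
def StPrt : Prop := ∀ (c : ℝ) (D : ℝ → ℝ), 0 ≤ c → ContinuousOn D (Icc 0 c) →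
  ∫ r in (0 : ℝ)..c, r * (∫ s in r..c, D s) = (1 / 2) * ∫ s in (0 : ℝ)..c, s ^ 2 * D s

/-- MODULE HXA (about 200 lines). `theorem hHXA (h : StWid) : StHexA`.
Proof. Let `W = wid K 0`, `D = wid K s > 0` (concavity: `D ≥ (1 - s/c) W`). Choose
`z₁, z₂ ∈ Sh K s` with `Im z₁ = inf`, `Im z₂ = sup` of `Im (Sh K s)`, `Im z₂ - Im z₁ = D`, and
`B, T ∈ K` with the smallest and the largest imaginary part. Put `P = z₁ + s`, `b = -s`,
`a = z₂ - z₁`; `cr a b = s D > 0`, and `P, P+b, P+a, P+a+b` are `z₁+s, z₁, z₂+s, z₂`, all in `K`.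
Choice of the upper apex: if `Im T = Im z₂` take `γ = 0, c = 0` (apex `P + a`). If
`Im T > Im z₂` put `1 + γ = (Im T - Im z₁)/D` and let `c` be defined by
`T = P + (1+γ) a + c b` (imaginary parts agree; the real parts define `c`). Claim `0 ≤ c ≤ 1`.
Otherwise, say `c < 0`: the segment from `P = z₁ + s` to `T` meets the height `Im z₂` at
`y = P + a + (c/(1+γ)) b`, which is in `K` and lies to the right of `z₂ + s`, so `[z₂, y]` is a
horizontal chord of length `s' > s` at the height `Im z₂`; with `T` above it and convexity there is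
a horizontal chord of length `≥ s` at a height `> Im z₂` (points `(1-ε) z₂ + ε T`,
`(1-ε) y + ε T` have distance `(1-ε) s' ≥ s` for small `ε > 0`), so a point of `Sh K s` higher
than `z₂`: contradiction. If `c > 1` use the segment from `P + b = z₁` to `T` in the same way.
The lower apex is symmetric (apply the same argument, or the upper case, to `-K`): if
`Im B = Im z₁` take `φ = 0, f = 0`, else `φ = (Im z₁ - Im B)/D`, `B = P - φ a + f b`. Then
`(2 + γ + φ) cr a b = s ((Im T - Im z₁) + (Im z₂ - Im B)) = s (W + D)`. -/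
def StHexA : Prop := ∀ K : Set ℂ, IsBody K → ∀ s ∈ Ioo 0 (cmax K),
  ∃ (P a b : ℂ) (γ φ c f : ℝ), Hex K P a b γ φ c f ∧
    (2 + γ + φ) * cr a b = s * (wid K 0 + wid K s)

/-- MODULE HXB (about 120 lines). `theorem hHXB (h : StWid) : StHexB`.
Proof. `z₁, z₂, D` as in HXA; `C₀ = cmax K`. Let `z₀ ∈ Sh K C₀`; then `Im z₁ ≤ Im z₀ ≤ Im z₂`
(`Sh K C₀ ⊆ Sh K s`) and the horizontal section of `K` at the height `Im z₀` is exactly
`[z₀, z₀ + C₀]` (a longer one would contradict the definition of `cmax`). Put `P = z₁`, `a = s`,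
`b = z₂ - z₁`: `cr a b = s D > 0`, `P, P+a, P+b, P+a+b = z₁, z₁+s, z₂, z₂+s ∈ K`. Let
`c = f = (Im z₀ - Im z₁)/D ∈ [0,1]`. The point `P + a + c b` (on the segment from `P+a` to
`P+a+b`) is in `K` at the height `Im z₀`, so it lies in `[z₀, z₀+C₀]`:
`z₀ + C₀ = P + (1+γ) a + c b` with `γ ≥ 0`; similarly `P + c b ∈ [z₀, z₀ + C₀]`, so
`z₀ = P - φ a + f b` with `φ ≥ 0`. Subtract: `C₀ = (1 + γ + φ) s`, so
`(2 + γ + φ) cr a b = (s + C₀) D`. -/
def StHexB : Prop := ∀ K : Set ℂ, IsBody K → ∀ s ∈ Ioo 0 (cmax K),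
  ∃ (P a b : ℂ) (γ φ c f : ℝ), Hex K P a b γ φ c f ∧
    (2 + γ + φ) * cr a b = wid K s * (s + cmax K)

/-- MODULE COV (about 150 lines). `theorem hCOV : StCov`.
Proof. Write `z = P + x a + y b` (coordinates `x, y ∈ ℝ`, as `cr a b ≠ 0`). Let `R` be the
`1`-periodic piecewise linear function with `R(n) = 1`, `R(n+c) = 1+γ` (linear in between) and `L`
the one with `L(n) = 0`, `L(n+f) = -φ`; e.g. `R(y) = 1 + γ min(t/c, (1-t)/(1-c))`,
`L(y) = -φ min(t/f, (1-t)/(1-f))` with `t = fract y`. (1) If `L(y) ≤ x ≤ R(y)` then, with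
`m = ⌊y⌋`, `z - m b ∈ K`: for `t = y - m ∈ [0,1)` the points `P + L a + t b` and `P + R a + t b` lie
on segments between two of the six points of `K`, and the point is between them. (2) Symmetry:
`R(c - y) = 2 + γ - R(y)`, `L(f - y) = -φ - L(y)` (periodicity and linearity on `[0,c]`, `[c,1]`).
(3) Put `w₁ = 2+γ+φ > 0`, `w₂ = c - f`, so `w = w₁ a + w₂ b`. As `L` is bounded there is a largest
integer `n` with `n w₁ + L(y - n w₂) ≤ x`; put `x' = x - n w₁`, `y' = y - n w₂`, so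
`L(y') ≤ x' < w₁ + L(y' - w₂)`. If `x' ≤ R(y')` use (1). If `x' > R(y')` then
`q - (z - n w) = P + (2+γ-x') a + (c-y') b` and
`L(c-y') = L(f - (y' - w₂)) = -φ - L(y' - w₂) ≤ 2+γ-x' ≤ 2+γ-R(y') = R(c-y')`, so by (1)
`q - (z - n w) - m' b ∈ K` for `m' = ⌊c-y'⌋`; take `m = -m'`. -/
def StCov : Prop := ∀ K : Set ℂ, Convex ℝ K → ∀ (P a b : ℂ) (γ φ c f : ℝ), 0 < cr a b →
  0 ≤ γ → 0 ≤ φ → c ∈ Ioo (0 : ℝ) 1 → f ∈ Ioo (0 : ℝ) 1 →
  P ∈ K → P + a ∈ K → P + b ∈ K → P + a + b ∈ K →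
  P + ((1 + γ : ℝ) : ℂ) * a + (c : ℂ) * b ∈ K → P - (φ : ℂ) * a + (f : ℂ) * b ∈ K →
  ∀ z : ℂ, ∃ m n : ℤ,
    z - ((m : ℂ) * b + (n : ℂ) * (((2 + γ + φ : ℝ) : ℂ) * a + ((c - f : ℝ) : ℂ) * b)) ∈ K ∨
    (2 * P + ((2 + γ : ℝ) : ℂ) * a + (c : ℂ) * b) -
      (z - ((m : ℂ) * b + (n : ℂ) * (((2 + γ + φ : ℝ) : ℂ) * a + ((c - f : ℝ) : ℂ) * b))) ∈ K

/-- MODULE CNT (about 150 lines). `theorem hCNT : StCnt`.
Proof. `Q ⊆ closedBall 0 R₁`, the cell `C = {s b + t w : s, t ∈ [0,1)}` has area `cr w b` (image of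
`[0,1)²` under a linear map with determinant `±cr w b`) and lies in `closedBall 0 R₂`; the
translates of `C` by the lattice vectors `λ = m b + n w` are disjoint. If
`(Q + λ) ∩ closedBall 0 r ≠ ∅` then `|λ| ≤ r + R₁`, so `C + λ ⊆ closedBall 0 (r + R₁ + R₂)`; hence
the number `N` of such `λ` satisfies `N cr w b ≤ π (r + R₁ + R₂)²`. Each term is at most
`volume Q`, and it is `0` for the other `λ`. -/
def StCnt : Prop := ∀ (Q : Set ℂ) (b w : ℂ), IsCompact Q → 0 < cr w b →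
  ∃ R₀ : ℝ, 0 ≤ R₀ ∧ ∀ r : ℝ, 0 ≤ r →
    ∑' i : ℤ × ℤ, volume ((fun z : ℂ => z + ((i.1 : ℂ) * b + (i.2 : ℂ) * w)) '' Q ∩
      Metric.closedBall 0 r) ≤ ENNReal.ofReal (Real.pi * (r + R₀) ^ 2 / cr w b) * volume Q

/-- MODULE LIM (about 130 lines). `theorem hLIM (h : StCnt) : StLim`.
Proof. Index set `ℕ ≃ Bool × ℤ × ℤ`; the isometries are `z ↦ z + λ` and `z ↦ q - z + λ`,
`λ = m b + n w`; their images of `K` cover the plane by hypothesis. By CNT for `Q = K` and for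
`Q = {q - z : z ∈ K}` (same volume) the quotient in `dens` is at most
`ofReal (2 (r + R₀)² / (r² cr w b)) * volume K` for `r > 0`, which tends to
`ofReal (2 area K / cr w b)`; `liminf ≤` the limit of an upper bound. -/
def StLim : Prop := ∀ (K : Set ℂ) (b w q : ℂ), IsCompact K → 0 < cr w b →
  (∀ z : ℂ, ∃ m n : ℤ, z - ((m : ℂ) * b + (n : ℂ) * w) ∈ K ∨
    q - (z - ((m : ℂ) * b + (n : ℂ) * w)) ∈ K) →
  theta K ≤ ENNReal.ofReal (2 * area K / cr w b)

/-- MODULE THE (about 80 lines). `theorem hTHE (h₁ : StCov) (h₂ : StLim) : StThe`.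
Proof. For `ε ∈ (0,1)` replace the two apexes by the points at the ratio `ε` on the segments to the
midpoints `P + a + b/2` and `P + b/2` of the sides: this is again a configuration in `K` with
`γ' = (1-ε) γ`, `c' = (1-ε) c + ε/2 ∈ (0,1)`, `φ' = (1-ε) φ`, `f' = (1-ε) f + ε/2 ∈ (0,1)`. By COV
and LIM with `w = (2+γ'+φ') a + (c'-f') b`, `cr w b = (2+γ'+φ') cr a b`,
`theta K ≤ ofReal (2 area K / ((2+γ'+φ') cr a b))`. Let `ε → 0`. -/
def StThe : Prop := ∀ (K : Set ℂ), IsBody K → ∀ (P a b : ℂ) (γ φ c f : ℝ),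
  Hex K P a b γ φ c f → theta K ≤ ENNReal.ofReal (2 * area K / ((2 + γ + φ) * cr a b))

/-- MODULE SML (about 40 lines). `theorem hSML (h : StThe) : StSml`.
Proof. `area K > 0` (interior, compact). If a hexagon has `(2+γ+φ) cr a b ≥ 2 m area K` then
`theta K ≤ ofReal (2 area K / ((2+γ+φ) cr a b)) ≤ ofReal (1/m)`. -/
def StSml : Prop := ∀ (K : Set ℂ), IsBody K → ∀ m : ℝ, 0 < m →
  ¬ (theta K ≤ ENNReal.ofReal (1 / m)) → Small K (2 * m * area K)

/-- MODULE ROT (about 80 lines). `theorem hROT : StRot`.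
Multiplication by a unit complex number is an isometry of `ℂ` which preserves volume, `cr`
(`cr (u z) (u w) = |u|² cr z w`) and membership; a configuration `Hex (u K) P a b ..` gives
`Hex K (u⁻¹ P) (u⁻¹ a) (u⁻¹ b) ..`. -/
def StRot : Prop := ∀ (K : Set ℂ) (u : ℂ), ‖u‖ = 1 → IsBody K →
  IsBody ((fun z => u * z) '' K) ∧ area ((fun z => u * z) '' K) = area K ∧
  ∀ B : ℝ, Small K B → Small ((fun z => u * z) '' K) B

/-- MODULE ONE (about 150 lines). `theorem hONE1 : StOne (826995/1000000) (1106/1000) (1453/1000)`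
and `theorem hONE2 : StOne (81422/100000) (1157/1000) (1354/1000)`.
Proof. Let `0 ≤ τ₁ ≤ τ₂ < 1`, `p = τ₂ - τ₁`, `q = 1 - τ₂`, `β = (τ₁+τ₂)/2`, `α = (1+τ₂)/2`. For a
concave function the mean over an interval is at most the value at the midpoint
(Hermite-Hadamard; pair `x` with its reflection), so
`k ≤ ∫₀ᶜ D ≤ c (τ₁ W + p D(β c) + q D(α c))`. By hypothesis
`D(β c) < 2mk / (c (1+β))` and `D(α c) < 2mk/(α c) - W`. Hence (strictly, as `q > 0`)
`k < c W (τ₁ - q) + 2mk (p/(1+β) + q/α)`. With `λ = p/(1+β) + q/α`: if `q > τ₁` this is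
`c W < k (2mλ - 1)/(q - τ₁)`, if `τ₁ > q` it is `c W > k (1 - 2mλ)/(τ₁ - q)`. Numbers
(`norm_num`): for `m = 826995/10^6`: `(τ₁,τ₂) = (90/1000, 658/1000)` gives `c W < 1.45275 k` and
`(479/1000, 815/1000)` gives `c W > 1.10679 k`; for `m = 81422/10^5`:
`(162/1000, 688/1000)` gives `c W < 1.35385 k` and `(385/1000, 779/1000)` gives
`c W > 1.15756 k`. -/
def StOne (m xl xu : ℝ) : Prop := ∀ (c W k : ℝ) (D : ℝ → ℝ), 0 < c → 0 < W → 0 < k →
  ContinuousOn D (Icc 0 c) → ConcaveOn ℝ (Icc 0 c) D →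
  (∀ s ∈ Icc 0 c, 0 ≤ D s ∧ D s ≤ W) → k ≤ ∫ s in (0 : ℝ)..c, D s →
  (∀ s ∈ Ioo 0 c, s * (W + D s) < 2 * m * k ∧ D s * (s + c) < 2 * m * k) →
  xl * k < c * W ∧ c * W < xu * k

/-- MODULE TWO (about 200 lines). `theorem hTWO1 : StTwo (826995/1000000) (456/100)` and
`theorem hTWO2 : StTwo (81422/100000) (425/100)`.
Proof. Let `κ > 1`, `0 < τ₁ < τ₂ < 1`, weight `ω(σ) = κ - σ² > 0` on `[0,1]`,
`r = ∫_0^{τ₁} ω`, `p = ∫_{τ₁}^{τ₂} ω`, `q = ∫_{τ₂}^1 ω`, centroids
`β = (1/p) ∫_{τ₁}^{τ₂} σ ω`, `α = (1/q) ∫_{τ₂}^1 σ ω`. Weighted Jensen for the concave function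
`σ ↦ D(c σ)` (use a supporting line at `β`, resp. `α`: a concave function on `[0,1]` lies below an
affine function which it touches at a given interior point):
`∫_0^1 ω(σ) D(cσ) dσ ≤ r W + p D(β c) + q D(α c)`. With `A = ∫_0^c D ≥ k` and
`J = ∫_0^c s² D(s) ds`: `κ c² A - J = c³ ∫_0^1 ω(σ) D(cσ) dσ`. By hypothesis
`D(βc) < 2mk/(c(1+β))`, `D(αc) < 2mk/(αc) - W`, hence
`κ c² k - J < c³ W (r - q) + 2 m k c² λ`, `λ = p/(1+β) + q/α`, and if `r ≤ q`:
`J > c² k (κ - 2mλ)`. With `J ≤ (k²/d) c²` we get `k/d > κ - 2mλ ≥ 1/β₀`, so `d < β₀ k`.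
Numbers (rational, `norm_num`): for `m = 826995/10^6`: `κ = 109/100, τ₁ = 105/1000,
τ₂ = 69/100`: `r = .114064125 ≤ q = .1140696..`, `β = 2153337/5782240`, `α = 3568773/4415600`,
`κ - 2mλ = .219585.. ≥ 1/4.56 = .219298..`. For `m = 81422/10^5`: `κ = 1555/1000, τ₁ = 16/100,
τ₂ = 70/100`: `r = .247434.. ≤ q = .2475`, `β = 46483/112150`, `α = 459/550`,
`κ - 2mλ = .235390.. ≥ 1/4.25 = .235294..`. -/
def StTwo (m β₀ : ℝ) : Prop := ∀ (c W k d : ℝ) (D : ℝ → ℝ), 0 < c → 0 < W → 0 < k → 0 < d →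
  ContinuousOn D (Icc 0 c) → ConcaveOn ℝ (Icc 0 c) D →
  (∀ s ∈ Icc 0 c, 0 ≤ D s ∧ D s ≤ W) → k ≤ ∫ s in (0 : ℝ)..c, D s →
  ∫ s in (0 : ℝ)..c, s ^ 2 * D s ≤ k ^ 2 / d * c ^ 2 →
  (∀ s ∈ Ioo 0 c, s * (W + D s) < 2 * m * k ∧ D s * (s + c) < 2 * m * k) →
  d < β₀ * k

/-- MODULE PIG (about 200 lines). `theorem hPIG (h : StWid) : StPig`.
Proof. Let `g(z) = volume {x | x ∈ K ∧ x + z ∈ K}` (covariogram). Tonelli:
`∫ g = (volume K)²` (substitute `y = x + z`). `g` vanishes outside `K - K`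
(a compact set of positive finite volume). Put `κ = k²/|K - K|` (`k = area K`), so
`∫ g = κ |K - K| = κ ∫ 1_{K-K}`. In polar coordinates (`Complex.lintegral_comp_polarCoord_symm`):
`∫_θ (∫_{r>0} r g(r e^{iθ}) dr) dθ = κ ∫_θ (∫_{r>0} r 1[r e^{iθ} ∈ K - K] dr) dθ`, all finite, so
there is a `θ` with `∫_{r>0} r g(r e^{iθ}) dr ≤ κ ∫_{r>0} r 1[r e^{iθ} ∈ K - K] dr`. Let
`u = e^{-iθ}` and `K' = u K`. Then `r e^{iθ} ∈ K - K` iff `Sh K' r` is nonempty
(`x, x + r e^{iθ} ∈ K` iff `u x, u x + r ∈ K'`), i.e. iff `r ≤ cmax K'` (by `StWid` for `K'` and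
monotonicity), so the right-hand side is `κ (cmax K')²/2`, and
`g(r e^{iθ}) = volume (Sh K' r)`. Measurability of `g`: it is a marginal of the measurable set
`{(x,z) | x ∈ K ∧ x + z ∈ K}` (`measurable_measure_prodMk_left`). -/
def StPig : Prop := ∀ K : Set ℂ, IsBody K → ∃ u : ℂ, ‖u‖ = 1 ∧
  ∫ r in (0 : ℝ)..cmax ((fun z => u * z) '' K), r * area (Sh ((fun z => u * z) '' K) r) ≤
    (area K) ^ 2 / area (K - K) * ((cmax ((fun z => u * z) '' K)) ^ 2 / 2)

/-- The criterion of theorem 1 (with parameters). -/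
def Crit (K : Set ℂ) (xl xu : ℝ) : Prop :=
  (∃ a ∈ K, ∃ b ∈ K, ∃ c ∈ K, ∃ d ∈ K, xu * area K ≤ |cr (c - a) (d - b)|) ∨
  (∃ p u v : ℂ, (∀ z ∈ K, ∃ s ∈ Icc (0 : ℝ) 1, ∃ t ∈ Icc (0 : ℝ) 1,
      z = p + (s : ℂ) * u + (t : ℂ) * v) ∧ |cr u v| ≤ xl * area K)

/-- MODULE FI1 (about 200 lines). `theorem hFI1 (m xl xu : ℝ) (hm : 0 < m) (hxu : 0 < xu)
(h₁ : StWid) (h₂ : StAre) (h₃ : StHexA) (h₄ : StHexB) (h₅ : StSml) (h₆ : StRot)
(h₇ : StOne m xl xu) : StFi1 m xl xu`.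
Proof. Suppose `theta K ≤ ofReal (1/m)` fails; by SML `Small K (2 m k)`, `k = area K > 0`. For
every unit `u` and `K' = u K`: `Small K' (2 m k)`, `area K' = k` (ROT); with `c = cmax K'`,
`W = wid K' 0`, `D = wid K'` the hexagons HXA, HXB give `s (W + D s) < 2mk` and
`D s (s + c) < 2mk` on `(0,c)`, and `k = area (Sh K' 0) = ∫_0^c D` by ARE, so ONE gives
`xl k < c W < xu k`. (a) If `a, b, c', d ∈ K` with `xu k ≤ |cr (c'-a) (d-b)|` (so `c' ≠ a`), take
`u = conj (c'-a)/|c'-a|`: `u c' = u a + |c'-a|`, so `|c'-a| ≤ cmax K'`, and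
`|Im (u d) - Im (u b)| = |cr (c'-a) (d-b)|/|c'-a| ≤ wid K' 0`; hence `c W ≥ |cr (c'-a) (d-b)|
≥ xu k`, a contradiction. (b) If `K ⊆ p + [0,1] u₀ + [0,1] v₀` with `|cr u₀ v₀| ≤ xl k`:
`cr u₀ v₀ ≠ 0` since otherwise `K` is contained in a line (no interior). Take
`u = conj u₀/|u₀|`, so `u u₀ = |u₀| > 0`. If `z, z + s ∈ K'`, `s ≥ 0`, then comparing the
coordinates (`Im (u v₀) ≠ 0`) `s ≤ |u₀|`, so `cmax K' ≤ |u₀|`; the imaginary parts of points of
`K'` differ by at most `|Im (u v₀)| = |cr u₀ v₀|/|u₀|`, so `c W ≤ |cr u₀ v₀| ≤ xl k`, a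
contradiction. -/
def StFi1 (m xl xu : ℝ) : Prop := ∀ K : Set ℂ, IsBody K → Crit K xl xu →
  theta K ≤ ENNReal.ofReal (1 / m)

/-- MODULE FI2 (about 100 lines). `theorem hFI2 (m β₀ : ℝ) (hm : 0 < m) (hβ : 0 < β₀)
(h₁ : StWid) (h₂ : StAre) (h₃ : StHexA) (h₄ : StHexB) (h₅ : StSml) (h₆ : StRot)
(h₇ : StTwo m β₀) (h₈ : StPig) (h₉ : StPrt) : StFi2 m β₀`.
Proof. As in FI1 with the `u` of PIG: `∫_0^c r (∫_r^c D) dr = ∫_0^c r area (Sh K' r) dr
≤ (k²/d) c²/2` with `d = area (K - K) > 0`, so `∫ s² D ≤ (k²/d) c²` (PRT), and TWO gives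
`d < β₀ k`. -/
def StFi2 (m β₀ : ℝ) : Prop := ∀ K : Set ℂ, IsBody K → β₀ * area K ≤ area (K - K) →
  theta K ≤ ENNReal.ofReal (1 / m)

end Helper97.CB
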