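import Pool.Agent.Helper97.CB.St

open MeasureTheory Set Filter Topology
open scoped Pointwise

namespace Helper97.CB

/-- the isometries of the double lattice -/
noncomputable def iso (b w q : ℂ) (j : Bool × ℤ × ℤ) : ℂ ≃ᵢ ℂ :=
  if j.1 then IsometryEquiv.subLeft (q + ((j.2.1 : ℂ) * b + (j.2.2 : ℂ) * w))
  else IsometryEquiv.addRight ((j.2.1 : ℂ) * b + (j.2.2 : ℂ) * w)

lemma tendsto_two (R₁ R₂ A : ℝ) :
    Tendsto (fun r : ℝ => ((r + R₁) ^ 2 + (r + R₂) ^ 2) / r ^ 2 * A) atTop (𝓝 (2 * A)) := by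
  have h1 : Tendsto (fun r : ℝ => R₁ / r) atTop (𝓝 0) := tendsto_const_nhds.div_atTop tendsto_id
  have h2 : Tendsto (fun r : ℝ => R₂ / r) atTop (𝓝 0) := tendsto_const_nhds.div_atTop tendsto_id
  have h3 : Tendsto (fun r : ℝ => ((1 + R₁ / r) ^ 2 + (1 + R₂ / r) ^ 2) * A) atTop
      (𝓝 (((1 + 0) ^ 2 + (1 + 0) ^ 2) * A)) :=
    (((h1.const_add 1).pow 2).add ((h2.const_add 1).pow 2)).mul_const A
  have e : ((1 + 0) ^ 2 + (1 + 0) ^ 2) * A = 2 * A := by norm_num
  rw [e] at h3
  refine h3.congr' ?_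
  filter_upwards [eventually_gt_atTop 0] with r hr
  field_simp

theorem hLIM (h : StCnt) : StLim := by
  intro K b w q hK hcr hcov
  -- the reflected copy
  set Q : Set ℂ := (fun z => q - z) '' K with hQ
  have hQc : IsCompact Q := hK.image (by fun_prop)
  have hQv : volume Q = volume K := by
    have : Q = (IsometryEquiv.subLeft q) '' K := by
      rw [hQ]; rfl
    rw [this]
    have e : (⇑(IsometryEquiv.subLeft q) : ℂ → ℂ) = (fun z => q - z) := rfl
    rw [e]
    have e2 : (fun z : ℂ => q - z) '' K = (fun z : ℂ => q - z) ⁻¹' K := by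
      ext z; constructor
      · rintro ⟨y, hy, rfl⟩; simpa using hy
      · intro hz; exact ⟨q - z, hz, by ring⟩
    rw [e2]
    exact (Measure.measurePreserving_sub_left volume q).measure_preimage
      hK.measurableSet.nullMeasurableSet
  obtain ⟨R₁, hR₁, hb₁⟩ := h K b w hK hcr
  obtain ⟨R₂, hR₂, hb₂⟩ := h Q b w hQc hcr
  obtain ⟨e⟩ : Nonempty (ℕ ≃ Bool × ℤ × ℤ) := nonempty_equiv_of_countable
  let φ : ℕ → (ℂ ≃ᵢ ℂ) := fun i => iso b w q (e i)
  have hcover : ⋃ i, φ i '' K = univ := by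
    rw [eq_univ_iff_forall]
    intro z
    obtain ⟨m, n, hz | hz⟩ := hcov z
    · refine mem_iUnion.2 ⟨e.symm (false, m, n), ?_⟩
      refine ⟨_, hz, ?_⟩
      simp only [φ, Equiv.apply_symm_apply, iso, Bool.false_eq_true, if_false,
        IsometryEquiv.addRight_apply]
      ring
    · refine mem_iUnion.2 ⟨e.symm (true, m, n), ?_⟩
      refine ⟨_, hz, ?_⟩
      simp only [φ, Equiv.apply_symm_apply, iso, if_true]
      have : ∀ (c x : ℂ), (IsometryEquiv.subLeft c) x = c - x := fun c x => rfl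
      rw [this]; ring
  have hsum : ∀ r : ℝ, ∑' i, volume (φ i '' K ∩ Metric.closedBall (0 : ℂ) r) =
      (∑' i : ℤ × ℤ, volume ((fun z : ℂ => z + ((i.1 : ℂ) * b + (i.2 : ℂ) * w)) '' K ∩
        Metric.closedBall 0 r)) +
      ∑' i : ℤ × ℤ, volume ((fun z : ℂ => z + ((i.1 : ℂ) * b + (i.2 : ℂ) * w)) '' Q ∩
        Metric.closedBall 0 r) := by
    intro r
    have h1 : ∑' i, volume (φ i '' K ∩ Metric.closedBall (0 : ℂ) r) =
        ∑' j : Bool × ℤ × ℤ, volume (iso b w q j '' K ∩ Metric.closedBall (0 : ℂ) r) :=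
      e.tsum_eq (fun j => volume (iso b w q j '' K ∩ Metric.closedBall (0 : ℂ) r))
    rw [h1, ENNReal.tsum_prod', tsum_bool]
    congr 1
    congr 1
    ext i
    congr 2
    rw [hQ, image_image]
    simp only [iso, if_true]
    ext z
    constructor
    · rintro ⟨x, hx, rfl⟩
      refine ⟨x, hx, ?_⟩
      have : ∀ (c x : ℂ), (IsometryEquiv.subLeft c) x = c - x := fun c x => rfl
      show _ = _
      beta_reduce
      rw [this]; ring
    · rintro ⟨x, hx, rfl⟩
      refine ⟨x, hx, ?_⟩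
      have : ∀ (c x : ℂ), (IsometryEquiv.subLeft c) x = c - x := fun c x => rfl
      show _ = _
      beta_reduce
      rw [this]; ring
  have hVfin : volume K ≠ ⊤ := hK.measure_lt_top.ne
  have hV : volume K = ENNReal.ofReal (area K) := by
    unfold area; rw [ENNReal.ofReal_toReal hVfin]
  have harea : 0 ≤ area K := ENNReal.toReal_nonneg
  have hdens : dens K φ ≤ ENNReal.ofReal (2 * area K / cr w b) := by
    unfold dens
    have hb : ∀ᶠ r : ℝ in atTop,
        (∑' i, volume (φ i '' K ∩ Metric.closedBall (0 : ℂ) r)) /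
          ENNReal.ofReal (Real.pi * r ^ 2) ≤
        ENNReal.ofReal (((r + R₁) ^ 2 + (r + R₂) ^ 2) / r ^ 2 * (area K / cr w b)) := by
      filter_upwards [eventually_gt_atTop 0] with r hr
      have hpr : 0 < Real.pi * r ^ 2 := by positivity
      rw [ENNReal.div_le_iff_le_mul (Or.inl (by positivity)) (Or.inl ENNReal.ofReal_ne_top)]
      rw [hsum r]
      refine (add_le_add (hb₁ r hr.le) (hb₂ r hr.le)).trans ?_
      rw [hQv, hV, ← ENNReal.ofReal_mul (by positivity), ← ENNReal.ofReal_mul (by positivity),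
        ← ENNReal.ofReal_add (by positivity) (by positivity),
        ← ENNReal.ofReal_mul (by positivity)]
      apply ENNReal.ofReal_le_ofReal
      apply le_of_eq
      field_simp
    have ht : Tendsto (fun r : ℝ => ENNReal.ofReal
        (((r + R₁) ^ 2 + (r + R₂) ^ 2) / r ^ 2 * (area K / cr w b))) atTop
        (𝓝 (ENNReal.ofReal (2 * area K / cr w b))) := by
      apply ENNReal.tendsto_ofReal
      have := tendsto_two R₁ R₂ (area K / cr w b)
      convert this using 2
      ring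
    exact (liminf_le_liminf hb).trans ht.liminf_eq.le
  unfold theta
  exact (iInf₂_le φ hcover).trans hdens

end Helper97.CB
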