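import Pool.Agent.Helper97.CB.St

open MeasureTheory Set Filter Topology
open scoped Pointwise

namespace Helper97.CB

theorem hPRT : StPrt := by
  intro c D hc hD
  let E : ℝ → ℝ := IccExtend hc ((Icc 0 c).domRestrict D)
  have hE : Continuous E := by
    apply Continuous.Icc_extend'
    exact continuousOn_iff_continuous_domRestrict.1 hD
  have hEq : ∀ x ∈ Icc 0 c, D x = E x := by
    intro x hx
    simp only [E, IccExtend_of_mem hc _ hx, domRestrict_apply]
  have h1 : ∀ r ∈ Icc 0 c, ∫ s in r..c, D s = ∫ s in r..c, E s := by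
    intro r hr
    apply intervalIntegral.integral_congr
    intro x hx
    rw [uIcc_of_le hr.2] at hx
    exact hEq x ⟨hr.1.trans hx.1, hx.2⟩
  have h2 : ∫ r in (0 : ℝ)..c, r * (∫ s in r..c, D s) =
      ∫ r in (0 : ℝ)..c, r * (∫ s in r..c, E s) := by
    apply intervalIntegral.integral_congr
    intro x hx
    rw [uIcc_of_le hc] at hx
    simp only [h1 x hx]
  have h3 : ∫ s in (0 : ℝ)..c, s ^ 2 * D s = ∫ s in (0 : ℝ)..c, s ^ 2 * E s := by
    apply intervalIntegral.integral_congr
    intro x hx
    rw [uIcc_of_le hc] at hx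
    simp only [hEq x hx]
  rw [h2, h3]
  have hF : ∀ r, HasDerivAt (fun u => ∫ s in u..c, E s) (-E r) r := fun r =>
    intervalIntegral.integral_hasDerivAt_left (hE.intervalIntegrable _ _)
      (hE.stronglyMeasurableAtFilter _ _) hE.continuousAt
  have hv : ∀ r : ℝ, HasDerivAt (fun r : ℝ => r ^ 2 / 2) r r := by
    intro r
    have h := (hasDerivAt_pow 2 r).div_const 2
    have e : ((2 : ℕ) : ℝ) * r ^ (2 - 1) / 2 = r := by norm_num
    rw [e] at h
    exact h
  have := intervalIntegral.integral_mul_deriv_eq_deriv_mul (a := 0) (b := c)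
    (u := fun u => ∫ s in u..c, E s) (v := fun r : ℝ => r ^ 2 / 2)
    (u' := fun r => -E r) (v' := fun r => r)
    (fun x _ => hF x) (fun x _ => hv x) (hE.neg.intervalIntegrable _ _)
    (continuous_id.intervalIntegrable _ _)
  simp only [intervalIntegral.integral_same, zero_mul] at this
  have e1 : ∫ r in (0 : ℝ)..c, r * (∫ s in r..c, E s) =
      ∫ x in (0 : ℝ)..c, (∫ s in x..c, E s) * x := by
    apply intervalIntegral.integral_congr; intro x _; simp only [mul_comm]
  rw [e1, this]
  have e2 : ∫ x in (0 : ℝ)..c, -E x * (x ^ 2 / 2) =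
      ∫ x in (0 : ℝ)..c, (-(1 / 2)) * (x ^ 2 * E x) := by
    apply intervalIntegral.integral_congr; intro x _; simp only; ring
  rw [e2, intervalIntegral.integral_const_mul]
  norm_num

end Helper97.CB
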