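import Pool.Agent.Helper97.CB.St

open MeasureTheory Set Filter Topology
open scoped Pointwise

namespace Helper97.CB

lemma cr_lin (a b : ℂ) (s t : ℝ) : cr ((s : ℂ) * a + (t : ℂ) * b) b = s * cr a b := by
  unfold cr
  simp only [Complex.add_re, Complex.add_im, Complex.mul_re, Complex.mul_im, Complex.ofReal_re,
    Complex.ofReal_im, zero_mul, sub_zero, add_zero]
  ring

theorem hTHE (h₁ : StCov) (h₂ : StLim) : StThe := by
  intro K hK P a b γ φ c f hH
  obtain ⟨hab, hγ, hφ, hc, hf, hP, hPa, hPb, hPab, hC, hF⟩ := hH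
  have hcv := hK.1
  have main : ∀ ε : ℝ, ε ∈ Ioo (0 : ℝ) 1 →
      theta K ≤ ENNReal.ofReal (2 * area K / ((2 + (1 - ε) * (γ + φ)) * cr a b)) := by
    intro ε hε
    obtain ⟨he0, he1⟩ := hε
    have hc' : (1 - ε) * c + ε / 2 ∈ Ioo (0 : ℝ) 1 := by
      constructor
      · have := mul_nonneg (by linarith : (0 : ℝ) ≤ 1 - ε) hc.1; linarith
      · have := mul_le_mul_of_nonneg_left hc.2 (by linarith : (0 : ℝ) ≤ 1 - ε); linarith
    have hf' : (1 - ε) * f + ε / 2 ∈ Ioo (0 : ℝ) 1 := by
      constructor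
      · have := mul_nonneg (by linarith : (0 : ℝ) ≤ 1 - ε) hf.1; linarith
      · have := mul_le_mul_of_nonneg_left hf.2 (by linarith : (0 : ℝ) ≤ 1 - ε); linarith
    have hm1 : P + a + ((1 / 2 : ℝ) : ℂ) * b ∈ K := by
      have := hcv hPa hPab (a := 1 / 2) (b := 1 / 2) (by norm_num) (by norm_num) (by norm_num)
      convert this using 1
      rw [Complex.real_smul, Complex.real_smul]; push_cast; ring
    have hm2 : P + ((1 / 2 : ℝ) : ℂ) * b ∈ K := by
      have := hcv hP hPb (a := 1 / 2) (b := 1 / 2) (by norm_num) (by norm_num) (by norm_num)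
      convert this using 1
      rw [Complex.real_smul, Complex.real_smul]; push_cast; ring
    have hC' : P + ((1 + (1 - ε) * γ : ℝ) : ℂ) * a + (((1 - ε) * c + ε / 2 : ℝ) : ℂ) * b ∈ K := by
      have := hcv hC hm1 (a := 1 - ε) (b := ε) (by linarith) he0.le (by ring)
      convert this using 1
      rw [Complex.real_smul, Complex.real_smul]; push_cast; ring
    have hF' : P - (((1 - ε) * φ : ℝ) : ℂ) * a + (((1 - ε) * f + ε / 2 : ℝ) : ℂ) * b ∈ K := by
      have := hcv hF hm2 (a := 1 - ε) (b := ε) (by linarith) he0.le (by ring)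
      convert this using 1
      rw [Complex.real_smul, Complex.real_smul]; push_cast; ring
    have hγ' : 0 ≤ (1 - ε) * γ := mul_nonneg (by linarith) hγ
    have hφ' : 0 ≤ (1 - ε) * φ := mul_nonneg (by linarith) hφ
    have cov := h₁ K hcv P a b ((1 - ε) * γ) ((1 - ε) * φ) ((1 - ε) * c + ε / 2)
      ((1 - ε) * f + ε / 2) hab hγ' hφ' hc' hf' hP hPa hPb hPab hC' hF'
    have hcr := cr_lin a b (2 + (1 - ε) * γ + (1 - ε) * φ)
      ((1 - ε) * c + ε / 2 - ((1 - ε) * f + ε / 2))
    have hpos : 0 < cr (((2 + (1 - ε) * γ + (1 - ε) * φ : ℝ) : ℂ) * a +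
        (((1 - ε) * c + ε / 2 - ((1 - ε) * f + ε / 2) : ℝ) : ℂ) * b) b := by
      rw [hcr]; positivity
    have := h₂ K b _ _ hK.2.1 hpos cov
    rw [hcr] at this
    convert this using 3
    ring
  have hlim : Tendsto (fun ε : ℝ => ENNReal.ofReal
      (2 * area K / ((2 + (1 - ε) * (γ + φ)) * cr a b))) (𝓝[>] 0)
      (𝓝 (ENNReal.ofReal (2 * area K / ((2 + γ + φ) * cr a b)))) := by
    apply ENNReal.tendsto_ofReal
    have hcont : ContinuousAt (fun ε : ℝ => 2 * area K / ((2 + (1 - ε) * (γ + φ)) * cr a b)) 0 := by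
      apply ContinuousAt.div (by fun_prop) (by fun_prop)
      have : 0 < (2 + (1 - (0 : ℝ)) * (γ + φ)) * cr a b := by
        have : 0 ≤ γ + φ := by linarith
        positivity
      exact this.ne'
    have := hcont.tendsto
    have e : 2 * area K / ((2 + (1 - (0 : ℝ)) * (γ + φ)) * cr a b) =
      2 * area K / ((2 + γ + φ) * cr a b) := by congr 1; ring
    rw [e] at this
    exact this.mono_left nhdsWithin_le_nhds
  exact ge_of_tendsto hlim (Filter.eventually_of_mem (Ioo_mem_nhdsGT one_pos) main)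

theorem hSML (h : StThe) : StSml := by
  intro K hK m hm hnot P a b γ φ c f hH
  by_contra hcon
  push Not at hcon
  apply hnot
  have hk : 0 < area K := by
    unfold area
    apply ENNReal.toReal_pos
    · have : 0 < volume (interior K) := isOpen_interior.measure_pos volume hK.2.2
      exact (this.trans_le (measure_mono interior_subset)).ne'
    · exact hK.2.1.measure_lt_top.ne
  refine (h K hK P a b γ φ c f hH).trans (ENNReal.ofReal_le_ofReal ?_)
  have hpos : 0 < 2 * m * area K := by positivity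
  rw [div_le_div_iff₀ (lt_of_lt_of_le hpos hcon) hm]
  nlinarith

end Helper97.CB
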