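import Pool.Agent.Helper97.CB.M_COV
import Pool.Agent.Helper97.CB.M_THE
import Pool.Agent.Helper97.CB.M_LIM
import Pool.Agent.Helper97.CB.M_PRT
import Pool.Agent.Helper47.CB.M_WID
import Pool.Agent.Helper36.CB.M_ARE
import Pool.Agent.Helper36.CB.M_ONE
import Pool.Agent.Helper36.CB.M_TWO
import Pool.Agent.Helper24.CB.M_HXA
import Pool.Agent.Helper24.CB.M_HXB
import Pool.Agent.Helper34.CB.M_CNT
import Pool.Agent.Helper3.CB.M_ROT
import Pool.Agent.Helper33.CB.M_PIG
import Pool.Agent.Helper64.CB.M_FI1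
import Pool.Agent.Helper64.CB.M_FI2

open MeasureTheory Set Filter
open scoped Pointwise

namespace Helper97.CB

theorem stWid : StWid := Pool.Agent.Helper47.CB.hWID
theorem stAre : StAre := Pool.Agent.Helper36.CB.hARE stWid
theorem stHexA : StHexA := Pool.Agent.Helper24.CB.hHXA stWid
theorem stHexB : StHexB := Pool.Agent.Helper24.CB.hHXB stWid
theorem stThe : StThe := hTHE hCOV (hLIM Pool.Agent.Helper34.CB.hCNT)
theorem stSml : StSml := hSML stThe
theorem stRot : StRot := Pool.Agent.Helper3.CB.hROT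

theorem bound_conj : (1 : ℝ) / (826995 / 1000000) ≤ 2 * Real.pi / Real.sqrt 27 := by
  have h27 : Real.sqrt 27 < 5.1961525 := by
    rw [Real.sqrt_lt' (by norm_num)]; norm_num
  have hpi := Real.pi_gt_d6
  have hs : 0 < Real.sqrt 27 := Real.sqrt_pos.2 (by norm_num)
  rw [le_div_iff₀ hs]
  nlinarith

theorem bound_rec : (1 : ℝ) / (81422 / 100000) ≤ 122817 / 100000 := by norm_num

/-- criterion of theorem 1 -/
theorem fi1_conj (K : Set ℂ) (hK : IsBody K) (h : Crit K (1106 / 1000) (1453 / 1000)) :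
    theta K ≤ ENNReal.ofReal (2 * Real.pi / Real.sqrt 27) :=
  (Pool.Agent.Helper64.CB.hFI1 (826995 / 1000000) (1106 / 1000) (1453 / 1000) (by norm_num)
    (by norm_num) stWid stAre stHexA stHexB stSml stRot Pool.Agent.Helper36.CB.hONE1 K hK h).trans
    (ENNReal.ofReal_le_ofReal bound_conj)

theorem fi1_rec (K : Set ℂ) (hK : IsBody K) (h : Crit K (1157 / 1000) (1354 / 1000)) :
    theta K ≤ ENNReal.ofReal (122817 / 100000) :=
  (Pool.Agent.Helper64.CB.hFI1 (81422 / 100000) (1157 / 1000) (1354 / 1000) (by norm_num)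
    (by norm_num) stWid stAre stHexA stHexB stSml stRot Pool.Agent.Helper36.CB.hONE2 K hK h).trans
    (ENNReal.ofReal_le_ofReal bound_rec)

theorem fi2_conj (K : Set ℂ) (hK : IsBody K) (h : (456 / 100 : ℝ) * area K ≤ area (K - K)) :
    theta K ≤ ENNReal.ofReal (2 * Real.pi / Real.sqrt 27) :=
  (Pool.Agent.Helper64.CB.hFI2 (826995 / 1000000) (456 / 100) (by norm_num)
    (by norm_num) stWid stAre stHexA stHexB stSml stRot Pool.Agent.Helper36.CB.hTWO1
    (Pool.Agent.Helper33.CB.hPIG stWid) hPRT K hK h).trans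
    (ENNReal.ofReal_le_ofReal bound_conj)

theorem fi2_rec (K : Set ℂ) (hK : IsBody K) (h : (425 / 100 : ℝ) * area K ≤ area (K - K)) :
    theta K ≤ ENNReal.ofReal (122817 / 100000) :=
  (Pool.Agent.Helper64.CB.hFI2 (81422 / 100000) (425 / 100) (by norm_num)
    (by norm_num) stWid stAre stHexA stHexB stSml stRot Pool.Agent.Helper36.CB.hTWO2
    (Pool.Agent.Helper33.CB.hPIG stWid) hPRT K hK h).trans
    (ENNReal.ofReal_le_ofReal bound_rec)

end Helper97.CB
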