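import Pool.Agent.Helper97.CB.St

open MeasureTheory Set Filter
open scoped Pointwise

namespace Helper97.CB

/-- the zigzag profile: 1-periodic, 0 at integers, 1 at integers plus c -/
noncomputable def zg (c y : ℝ) : ℝ := min (Int.fract y / c) ((1 - Int.fract y) / (1 - c))

lemma zg_nonneg {c : ℝ} (h0 : 0 < c) (h1 : c < 1) (y : ℝ) : 0 ≤ zg c y := by
  unfold zg
  refine le_min (div_nonneg (Int.fract_nonneg y) h0.le) (div_nonneg ?_ (by linarith))
  linarith [Int.fract_lt_one y]

lemma zg_le_one {c : ℝ} (h0 : 0 < c) (h1 : c < 1) (y : ℝ) : zg c y ≤ 1 := by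
  unfold zg
  rcases le_total (Int.fract y) c with h | h
  · exact (min_le_left _ _).trans ((div_le_one h0).2 h)
  · exact (min_le_right _ _).trans ((div_le_one (by linarith)).2 (by linarith))

lemma zg_sub_int (c y : ℝ) (m : ℤ) : zg c (y - m) = zg c y := by
  unfold zg; rw [Int.fract_sub_intCast]

lemma zg_of_le {c y : ℝ} (h0 : 0 < c) (h1 : c < 1) (h : Int.fract y ≤ c) :
    zg c y = Int.fract y / c := by
  unfold zg
  apply min_eq_left
  have h2 : Int.fract y / c ≤ 1 := (div_le_one h0).2 h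
  have h3 : 1 ≤ (1 - Int.fract y) / (1 - c) := (one_le_div (by linarith)).2 (by linarith)
  exact h2.trans h3

lemma zg_of_ge {c y : ℝ} (h0 : 0 < c) (h1 : c < 1) (h : c ≤ Int.fract y) :
    zg c y = (1 - Int.fract y) / (1 - c) := by
  unfold zg
  apply min_eq_right
  have h2 : 1 ≤ Int.fract y / c := (one_le_div h0).2 h
  have h3 : (1 - Int.fract y) / (1 - c) ≤ 1 := (div_le_one (by linarith)).2 (by linarith)
  exact h3.trans h2

lemma zg_symm {c : ℝ} (h0 : 0 < c) (h1 : c < 1) (y : ℝ) : zg c (c - y) = 1 - zg c y := by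
  have hf := Int.fract_nonneg y
  have hf1 := Int.fract_lt_one y
  have hc : (c - y) = (c - Int.fract y) - (⌊y⌋ : ℤ) := by
    have := Int.floor_add_fract y
    linarith
  rcases le_total (Int.fract y) c with h | h
  · have e : Int.fract (c - y) = c - Int.fract y := by
      rw [hc, Int.fract_sub_intCast, Int.fract_eq_self]
      constructor <;> linarith
    rw [zg_of_le h0 h1 h, zg_of_le h0 h1 (by rw [e]; linarith), e]
    field_simp
  · rcases eq_or_lt_of_le h with h' | h'
    · have e : Int.fract (c - y) = 0 := by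
        rw [hc, Int.fract_sub_intCast, ← h']; simp
      rw [zg_of_ge h0 h1 h, zg_of_le h0 h1 (by rw [e]; linarith), e, ← h']
      have : (1 - c) ≠ 0 := by linarith
      field_simp; ring
    · have e : Int.fract (c - y) = c - Int.fract y + 1 := by
        have hc2 : (c - y) = (c - Int.fract y + 1) - ((⌊y⌋ + 1 : ℤ) : ℝ) := by
          have := Int.floor_add_fract y
          push_cast; linarith
        rw [hc2, Int.fract_sub_intCast, Int.fract_eq_self]
        constructor <;> linarith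
      rw [zg_of_ge h0 h1 h, zg_of_ge h0 h1 (by rw [e]; linarith), e]
      have : (1 - c) ≠ 0 := by linarith
      field_simp; ring

lemma left_mem {K : Set ℂ} (hK : Convex ℝ K) {P b X : ℂ} {f : ℝ} (h0 : 0 < f) (h1 : f < 1)
    (hP : P ∈ K) (hPb : P + b ∈ K) (hX : P + X + (f : ℂ) * b ∈ K) (y : ℝ) :
    P + ((zg f y : ℝ) : ℂ) * X + ((Int.fract y : ℝ) : ℂ) * b ∈ K := by
  have hf := Int.fract_nonneg y
  have hf1 := Int.fract_lt_one y
  rcases le_total (Int.fract y) f with h | h
  · rw [zg_of_le h0 h1 h]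
    have := hK hP hX (a := 1 - Int.fract y / f) (b := Int.fract y / f)
      (by have := (div_le_one h0).2 h; linarith) (by positivity) (by ring)
    convert this using 1
    rw [Complex.real_smul, Complex.real_smul]
    have hfc : (f : ℂ) ≠ 0 := by exact_mod_cast h0.ne'
    push_cast
    field_simp
    ring
  · rw [zg_of_ge h0 h1 h]
    have h3 : 0 < 1 - f := by linarith
    have := hK hPb hX (a := (Int.fract y - f) / (1 - f)) (b := (1 - Int.fract y) / (1 - f))
      (div_nonneg (by linarith) h3.le) (div_nonneg (by linarith) h3.le) (by field_simp; ring)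
    convert this using 1
    rw [Complex.real_smul, Complex.real_smul]
    have hfc : (1 - f : ℂ) ≠ 0 := by exact_mod_cast h3.ne'
    push_cast
    field_simp
    ring

theorem hCOV : StCov := by
  intro K hK P a b γ φ c f hab hγ hφ hc hf hP hPa hPb hPab hC hF z
  obtain ⟨hc0, hc1⟩ := hc
  obtain ⟨hf0, hf1⟩ := hf
  -- coordinates
  obtain ⟨x, y, hz⟩ : ∃ x y : ℝ, z = P + (x : ℂ) * a + (y : ℂ) * b := by
    have hne : cr a b ≠ 0 := hab.ne'
    have hx : cr (z - P) b / cr a b * cr a b = cr (z - P) b := div_mul_cancel₀ _ hne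
    have hy : cr a (z - P) / cr a b * cr a b = cr a (z - P) := div_mul_cancel₀ _ hne
    refine ⟨cr (z - P) b / cr a b, cr a (z - P) / cr a b, ?_⟩
    generalize cr (z - P) b / cr a b = x at hx
    generalize cr a (z - P) / cr a b = y at hy
    unfold cr at hx hy hne
    simp only [Complex.sub_re, Complex.sub_im] at hx hy
    apply Complex.ext
    · simp only [Complex.add_re, Complex.mul_re, Complex.ofReal_re, Complex.ofReal_im,
        zero_mul, sub_zero]
      apply mul_right_cancel₀ hne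
      linear_combination (-a.re) * hx - b.re * hy
    · simp only [Complex.add_im, Complex.mul_im, Complex.ofReal_re, Complex.ofReal_im,
        zero_mul, add_zero]
      apply mul_right_cancel₀ hne
      linear_combination (-a.im) * hx - b.im * hy
  -- points between the two boundary curves
  have key : ∀ x y : ℝ, -φ * zg f y ≤ x → x ≤ 1 + γ * zg c y →
      P + (x : ℂ) * a + ((y - ⌊y⌋ : ℝ) : ℂ) * b ∈ K := by
    intro x y h1 h2
    have e1 := left_mem hK hf0 hf1 hP hPb (X := -(φ : ℂ) * a) (by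
      convert hF using 1; ring) y
    have e2 := left_mem hK hc0 hc1 (P := P + a) hPa (by convert hPab using 1)
      (X := (γ : ℂ) * a) (by convert hC using 1; push_cast; ring) y
    have hlt : (0 : ℝ) < 1 + γ * zg c y + φ * zg f y := by
      have := mul_nonneg hγ (zg_nonneg hc0 hc1 y)
      have := mul_nonneg hφ (zg_nonneg hf0 hf1 y)
      linarith
    set Δ := 1 + γ * zg c y + φ * zg f y with hΔ
    have := hK e1 e2 (a := (1 + γ * zg c y - x) / Δ) (b := (x + φ * zg f y) / Δ)
      (div_nonneg (by linarith) hlt.le) (div_nonneg (by linarith) hlt.le)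
      (by field_simp; rw [hΔ]; ring)
    convert this using 1
    rw [Complex.real_smul, Complex.real_smul]
    have hfr : (y - ⌊y⌋ : ℝ) = Int.fract y := rfl
    rw [hfr]
    have hΔc : (Δ : ℂ) ≠ 0 := by exact_mod_cast hlt.ne'
    have hΔ' : (Δ : ℂ) = 1 + (γ : ℂ) * (zg c y : ℂ) + (φ : ℂ) * (zg f y : ℂ) := by
      rw [hΔ]; push_cast; ring
    push_cast
    field_simp
    rw [hΔ']
    ring
  set w₁ : ℝ := 2 + γ + φ with hw1
  set w₂ : ℝ := c - f with hw2
  have hw1pos : 0 < w₁ := by rw [hw1]; linarith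
  -- the largest n
  obtain ⟨n, hn, hmax⟩ := Int.exists_greatest_of_bdd
    (P := fun n : ℤ => (n : ℝ) * w₁ + (-φ * zg f (y - n * w₂)) ≤ x)
    ⟨⌈(x + φ) / w₁⌉, by
      intro n hn
      have h1 := zg_le_one hf0 hf1 (y - n * w₂)
      have h2 : (n : ℝ) * w₁ ≤ x + φ := by nlinarith
      have h3 : (n : ℝ) ≤ (x + φ) / w₁ := (le_div_iff₀ hw1pos).2 h2
      exact_mod_cast h3.trans (Int.le_ceil _)⟩
    ⟨⌊x / w₁⌋, by
      have h1 := zg_nonneg hf0 hf1 (y - (⌊x / w₁⌋ : ℤ) * w₂)
      have h2 : ((⌊x / w₁⌋ : ℤ) : ℝ) * w₁ ≤ x := by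
        have := Int.floor_le (x / w₁)
        calc ((⌊x / w₁⌋ : ℤ) : ℝ) * w₁ ≤ (x / w₁) * w₁ := by
              exact mul_le_mul_of_nonneg_right this hw1pos.le
          _ = x := by field_simp
      have h3 := mul_nonneg hφ h1
      have : ((⌊x / w₁⌋ : ℤ) : ℝ) * w₁ + (-φ * zg f (y - (⌊x / w₁⌋ : ℤ) * w₂)) ≤ x := by
        linarith
      exact this⟩
  have hn1 : x < ((n : ℝ) + 1) * w₁ + (-φ * zg f (y - (n + 1) * w₂)) := by
    by_contra hcon
    push Not at hcon
    have := hmax (n + 1) (by push_cast; exact hcon)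
    linarith
  set x' : ℝ := x - n * w₁ with hx'
  set y' : ℝ := y - n * w₂ with hy'
  have hL : -φ * zg f y' ≤ x' := by rw [hx']; linarith
  have hU : x' < w₁ - φ * zg f (y' - w₂) := by
    have e : y' - w₂ = y - (n + 1) * w₂ := by rw [hy']; ring
    rw [e, hx']; linarith
  have hzn : z - (n : ℂ) * ((w₁ : ℂ) * a + (w₂ : ℂ) * b) = P + (x' : ℂ) * a + (y' : ℂ) * b := by
    rw [hz, hx', hy']; push_cast; ring
  rcases le_or_gt x' (1 + γ * zg c y') with h | h
  · refine ⟨⌊y'⌋, n, Or.inl ?_⟩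
    have := key x' y' hL h
    convert this using 1
    have e : z - ((⌊y'⌋ : ℂ) * b + (n : ℂ) * ((w₁ : ℂ) * a + (w₂ : ℂ) * b)) =
      (z - (n : ℂ) * ((w₁ : ℂ) * a + (w₂ : ℂ) * b)) - (⌊y'⌋ : ℂ) * b := by ring
    rw [e, hzn]; push_cast; ring
  · refine ⟨-⌊c - y'⌋, n, Or.inr ?_⟩
    have h1 : -φ * zg f (c - y') ≤ 2 + γ - x' := by
      have e : c - y' = f - (y' - w₂) := by rw [hw2]; ring
      rw [e, zg_symm hf0 hf1]
      rw [hw1] at hU
      nlinarith
    have h2 : 2 + γ - x' ≤ 1 + γ * zg c (c - y') := by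
      rw [zg_symm hc0 hc1]
      nlinarith
    have := key (2 + γ - x') (c - y') h1 h2
    convert this using 1
    have e : (2 * P + ((2 + γ : ℝ) : ℂ) * a + (c : ℂ) * b) -
      (z - (((-⌊c - y'⌋ : ℤ) : ℂ) * b + (n : ℂ) * ((w₁ : ℂ) * a + (w₂ : ℂ) * b))) =
      (2 * P + ((2 + γ : ℝ) : ℂ) * a + (c : ℂ) * b) -
      (z - (n : ℂ) * ((w₁ : ℂ) * a + (w₂ : ℂ) * b)) - (⌊c - y'⌋ : ℂ) * b := by push_cast; ring
    rw [e, hzn]; push_cast; ring

end Helper97.CB
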